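import Pool.Agent.Q161.Eig.Basic

/-!
# The majorization `λ(A² + |BA|^p) ≻ λ(A² + |AB|^p)` fails for `p = 5`

Take `A = diag(8/5, 28/5, 0)` and `B = (5/252) (28 w₁ w₁ᵀ + (9/4) w₂ w₂ᵀ)` with
`w₁ = (1, 1/4, 2)`, `w₂ = (0, 1, -8)`.  The rows of `A B` are `2 v₁`, `v₂`, `0` with the orthonormal
vectors `v₁ = (4, 1, 8)/9`, `v₂ = (7, 4, -4)/9`, so `|BA| = diag(2, 1, 0)` and
`|AB| = 2 v₁ v₁ᵀ + v₂ v₂ᵀ`.  The largest eigenvalue of `A² + |BA|⁵` is `34.56`, that of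
`A² + |AB|⁵` is at least `35.5`.
-/

open Matrix Finset
open scoped MatrixOrder ComplexOrder

namespace Pool.Agent.Results.MP_26c808_an.MajorizationFails

open Pool.Agent.Q161.Eig

/-- cast to complex matrices -/
noncomputable def cst (X : Matrix (Fin 3) (Fin 3) ℚ) : Matrix (Fin 3) (Fin 3) ℂ :=
  (Rat.castHom ℂ).mapMatrix X

lemma cst_apply (X : Matrix (Fin 3) (Fin 3) ℚ) (i j : Fin 3) : cst X i j = (X i j : ℂ) := rfl

lemma cst_mul (X Y : Matrix (Fin 3) (Fin 3) ℚ) : cst (X * Y) = cst X * cst Y := map_mul _ _ _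

lemma cst_pow (X : Matrix (Fin 3) (Fin 3) ℚ) (k : ℕ) : cst (X ^ k) = cst X ^ k := map_pow _ _ _

lemma cst_add (X Y : Matrix (Fin 3) (Fin 3) ℚ) : cst (X + Y) = cst X + cst Y := map_add _ _ _

lemma cst_conj (X : Matrix (Fin 3) (Fin 3) ℚ) : (cst X)ᴴ = cst Xᵀ := by
  ext i j
  simp [cst_apply, Matrix.conjTranspose_apply]

/-- `c₁ w₁ w₁ᵀ + c₂ w₂ w₂ᵀ` -/
def gram (c₁ c₂ : ℚ) (w₁ w₂ : Fin 3 → ℚ) : Matrix (Fin 3) (Fin 3) ℚ :=
  Matrix.of fun i j => c₁ * (w₁ i * w₁ j) + c₂ * (w₂ i * w₂ j)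

lemma gram_psd {c₁ c₂ : ℚ} (h1 : 0 ≤ c₁) (h2 : 0 ≤ c₂) (w₁ w₂ : Fin 3 → ℚ) :
    (cst (gram c₁ c₂ w₁ w₂)).PosSemidef := by
  have e : cst (gram c₁ c₂ w₁ w₂)
      = (c₁ : ℂ) • vecMulVec (fun i => (w₁ i : ℂ)) (star fun i => (w₁ i : ℂ))
        + (c₂ : ℂ) • vecMulVec (fun i => (w₂ i : ℂ)) (star fun i => (w₂ i : ℂ)) := by
    ext i j
    simp [cst_apply, gram, vecMulVec_apply]
  rw [e]
  have k1 : (0 : ℂ) ≤ (c₁ : ℂ) := by
    have : ((c₁ : ℝ) : ℂ) = (c₁ : ℂ) := by norm_cast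
    rw [← this, Complex.zero_le_real]; exact_mod_cast h1
  have k2 : (0 : ℂ) ≤ (c₂ : ℂ) := by
    have : ((c₂ : ℝ) : ℂ) = (c₂ : ℂ) := by norm_cast
    rw [← this, Complex.zero_le_real]; exact_mod_cast h2
  exact ((posSemidef_vecMulVec_self_star _).smul k1).add ((posSemidef_vecMulVec_self_star _).smul k2)

/-- `A = diag(8/5, 28/5, 0)` -/
def Aq : Matrix (Fin 3) (Fin 3) ℚ := gram (8 / 5) (28 / 5) ![1, 0, 0] ![0, 1, 0]

/-- `B` -/
def Bq : Matrix (Fin 3) (Fin 3) ℚ :=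
  gram (5 / 9) (5 / 112) ![1, 1 / 4, 2] ![0, 1, -8]

/-- `|AB|` -/
def Pq : Matrix (Fin 3) (Fin 3) ℚ := gram (2 / 81) (1 / 81) ![4, 1, 8] ![7, 4, -4]

/-- `|BA|` -/
def Eq1 : Matrix (Fin 3) (Fin 3) ℚ := gram 2 1 ![1, 0, 0] ![0, 1, 0]

lemma P_sq : Pq * Pq = (Aq * Bq)ᵀ * (Aq * Bq) := by decide +kernel

lemma Q_sq : Eq1 * Eq1 = (Bq * Aq)ᵀ * (Bq * Aq) := by decide +kernel

lemma X_val : Aq * Aq + Eq1 ^ 5 = Matrix.of ![![864 / 25, 0, 0], ![0, 809 / 25, 0], ![0, 0, 0]] := by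
  decide +kernel

lemma Y_form : ![5, 10, 9] ⬝ᵥ (Aq * Aq + Pq ^ 5) *ᵥ ![5, 10, 9] = 65961 / 9 := by
  decide +kernel

/-- There are `n` (namely `3`), positive semidefinite `A, B` and `p > 0` (namely `5`) such that
`λ(A² + |BA|^p)` does not majorize `λ(A² + |AB|^p)`. -/
theorem result : ∃ (A B : Matrix (Fin 3) (Fin 3) ℂ) (p : ℝ), A.PosSemidef ∧ B.PosSemidef ∧ 0 < p ∧
    ∃ (hX : (A * A + absPow (B * A) p).IsHermitian) (hY : (A * A + absPow (A * B) p).IsHermitian),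
      ¬ Majorizes hX hY := by
  have hA : (cst Aq).PosSemidef := gram_psd (by norm_num) (by norm_num) _ _
  have hB : (cst Bq).PosSemidef := gram_psd (by norm_num) (by norm_num) _ _
  have hP : (cst Pq).PosSemidef := gram_psd (by norm_num) (by norm_num) _ _
  have hQ : (cst Eq1).PosSemidef := gram_psd (by norm_num) (by norm_num) _ _
  have e1 : absPow (cst Bq * cst Aq) (5 : ℕ) = cst Eq1 ^ 5 :=
    absPow_eq hQ (by rw [← cst_mul, ← cst_mul, cst_conj, ← cst_mul, Q_sq]) 5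
  have e2 : absPow (cst Aq * cst Bq) (5 : ℕ) = cst Pq ^ 5 :=
    absPow_eq hP (by rw [← cst_mul, ← cst_mul, cst_conj, ← cst_mul, P_sq]) 5
  have fX : cst Aq * cst Aq + absPow (cst Bq * cst Aq) (5 : ℕ) = cst (Aq * Aq + Eq1 ^ 5) := by
    rw [e1, cst_add, cst_mul, cst_pow]
  have fY : cst Aq * cst Aq + absPow (cst Aq * cst Bq) (5 : ℕ) = cst (Aq * Aq + Pq ^ 5) := by
    rw [e2, cst_add, cst_mul, cst_pow]
  have hX : (cst Aq * cst Aq + absPow (cst Bq * cst Aq) (5 : ℕ)).IsHermitian := by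
    rw [fX, Matrix.IsHermitian, cst_conj]
    congr 1
    decide +kernel
  have hY : (cst Aq * cst Aq + absPow (cst Aq * cst Bq) (5 : ℕ)).IsHermitian := by
    rw [fY, Matrix.IsHermitian, cst_conj]
    congr 1
    decide +kernel
  refine ⟨cst Aq, cst Bq, (5 : ℕ), hA, hB, by norm_num, hX, hY, ?_⟩
  rintro ⟨hmaj, -⟩
  have h1 := hmaj 1
  have ef : (univ.filter fun i : Fin 3 => i.val < 1) = {0} := by decide
  rw [ef, Finset.sum_singleton, Finset.sum_singleton] at h1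
  -- the upper bound
  have hXle : ev hX 0 ≤ 864 / 25 := by
    refine ev_le hX (fun v => ?_) 0
    rw [fX, X_val]
    have e : inner ℂ v (Matrix.toEuclideanLin (cst (Matrix.of ![![864 / 25, 0, 0],
        ![0, 809 / 25, 0], ![0, 0, 0]])) v)
        = ((864 / 25 * ‖v.ofLp 0‖ ^ 2 + 809 / 25 * ‖v.ofLp 1‖ ^ 2 : ℝ) : ℂ) := by
      rw [PiLp.inner_apply, Fin.sum_univ_three]
      simp only [Matrix.toLpLin_apply, Matrix.mulVec, dotProduct, Fin.sum_univ_three, cst_apply,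
        Matrix.of_apply, Matrix.cons_val_zero, Matrix.cons_val_one, Matrix.cons_val, RCLike.inner_apply]
      push_cast
      have n0 : v.ofLp 0 * (starRingEnd ℂ) (v.ofLp 0) = ((‖v.ofLp 0‖ ^ 2 : ℝ) : ℂ) := by
        rw [Complex.mul_conj, Complex.normSq_eq_norm_sq]
      have n1 : v.ofLp 1 * (starRingEnd ℂ) (v.ofLp 1) = ((‖v.ofLp 1‖ ^ 2 : ℝ) : ℂ) := by
        rw [Complex.mul_conj, Complex.normSq_eq_norm_sq]
      push_cast at n0 n1
      linear_combination (864 / 25) * n0 + (809 / 25) * n1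
    rw [e, Complex.ofReal_re, EuclideanSpace.norm_sq_eq, Fin.sum_univ_three]
    nlinarith [sq_nonneg ‖v.ofLp 1‖, sq_nonneg ‖v.ofLp 2‖]
  -- the lower bound
  have hYall : ∀ i, ev hY i ≤ 864 / 25 := fun i =>
    (ev_antitone hY (Fin.zero_le i)).trans (h1.trans hXle)
  have h2 := form_le hY hYall (WithLp.toLp 2 ![5, 10, 9])
  rw [fY] at h2
  have e : inner ℂ (WithLp.toLp 2 ![(5:ℂ), 10, 9])
      (Matrix.toEuclideanLin (cst (Aq * Aq + Pq ^ 5)) (WithLp.toLp 2 ![(5:ℂ), 10, 9]))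
      = ((![5, 10, 9] ⬝ᵥ (Aq * Aq + Pq ^ 5) *ᵥ ![5, 10, 9] : ℚ) : ℂ) := by
    rw [PiLp.inner_apply, Fin.sum_univ_three]
    simp only [Matrix.toLpLin_apply, Matrix.mulVec, dotProduct, Fin.sum_univ_three, cst_apply,
      Matrix.cons_val_zero, Matrix.cons_val_one, Matrix.cons_val, RCLike.inner_apply]
    push_cast
    simp only [map_ofNat]
    ring
  rw [e, Y_form, EuclideanSpace.norm_sq_eq, Fin.sum_univ_three] at h2
  simp only [Matrix.cons_val_zero, Matrix.cons_val_one, Matrix.cons_val] at h2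
  have e3 : (((65961 / 9 : ℚ)) : ℂ) = (((65961 / 9 : ℝ)) : ℂ) := by push_cast; norm_num
  rw [e3, Complex.ofReal_re] at h2
  norm_num at h2

end Pool.Agent.Results.MP_26c808_an.MajorizationFails
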